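import Pool.Agent.Helper73.OE.Geo

/-!
Project OE: the statements between the blocks. Text: Pool/Agent/Helper73/OE/paper.md.

* block A (moves, exactness): `Exact_stmt`, `UpdMatched_stmt`
* block C (moments, cost): `Ind_stmt`, `Matched_stmt`, `Cost_stmt`
* block D (batch): `Batch_stmt`, `BatchEquiv_stmt`, `BatchMeas_stmt`
* block E: `Init_stmt`, `Seq_stmt`, `Struct_stmt` and the final theorem.
-/

open MeasureTheory
open scoped ENNReal

namespace Pool.Agent.Helper73.OE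

namespace Sys

variable {H S L : Type} [Group H] (X : Sys H S L)

/-- `z` is changed by the static update at the directed edge `(v, s)` (if this is a positive edge of
the batch). -/
def ChSt [Fintype L] (P : Par) (ε ε' : ℝ) (q : Cfg H S L) (η : Env H S) (u : Seeds H S)
    (v : H) (s : S) (z : H) : Prop :=
  X.Si ε ε' η v s ∧ X.Pos η (v, s) ∧ X.Upd P (X.Op ε η) v s (sd P u (v, s)) q z ≠ q z

/-- The expected number of vertices changed by the static update at `(1, s)`. -/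
noncomputable def cost [Fintype L] (P : Par) (ε ε' : ℝ) (μ : Measure (Cfg H S L × Env H S))
    (s : S) : ℝ≥0∞ :=
  ∑' z : H, (μ.prod (lamS H S)) {w | X.ChSt P ε ε' w.1.1 w.1.2 w.2 1 s z}

end Sys

/-- Block A. Exactness of one update in the finite volume `Λ` (Lemma 3.1). -/
def Exact_stmt : Prop :=
  ∀ {H S L : Type} [Group H] [Fintype S] [Fintype L] (X : Sys H S L) (P : Par), 1 ≤ P.cap →
    ∀ (Λ : Finset H) (O : Edges H S), X.Sym O → (∀ v s, O v s → v ∈ Λ ∧ X.nb v s ∈ Λ) →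
    ∀ (v : H) (s : S), v ∈ Λ → X.nb v s ∈ Λ → ¬ O v s →
    ∀ F : Cfg H S L → ℝ≥0∞,
      ∑ u ∈ Finset.range P.cap, X.starSum Λ O (fun f => F (X.Upd P O v s u f)) =
        (Fintype.card L : ℝ≥0∞) * P.cap * X.starSum Λ (X.addE O (v, s)) F

/-- Block A. The result of an update is matched (any volume). -/
def UpdMatched_stmt : Prop :=
  ∀ {H S L : Type} [Group H] [Fintype L] (X : Sys H S L) (P : Par) (O : Edges H S), X.Sym O →
    ∀ (v : H) (s : S), ¬ O v s → ∀ (u : ℕ) (f : Cfg H S L), X.MA O Set.univ f →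
      X.MA (X.addE O (v, s)) Set.univ (X.Upd P O v s u f)

/-- Block C. The labels of the edge `(v, t)` are independent of everything on the side of `v`
(Lemma 4.1). -/
def Ind_stmt : Prop :=
  ∀ {H S L : Type} [Group H] [Countable H] [Fintype S] [Fintype L] (X : Sys H S L) (ε : ℝ)
    (μ : Measure (Cfg H S L × Env H S)), X.IsStar ε μ →
    ∀ (v : H) (t : S) (G : Cfg H S L × Env H S → ℝ≥0∞), Measurable G → X.DepOn (X.Sd v t) G →
    ∀ φ : (unitInterval × unitInterval) × (unitInterval × unitInterval) → ℝ≥0∞, Measurable φ →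
      ∫⁻ w, G w * φ (w.2 (v, t), w.2 (X.rev (v, t))) ∂μ =
        (∫⁻ w, G w ∂μ) * ∫⁻ x, φ x ∂(volume.prod volume)

/-- Block C. Open edges are matched, almost surely. -/
def Matched_stmt : Prop :=
  ∀ {H S L : Type} [Group H] [Countable H] [Fintype S] [Fintype L] (X : Sys H S L) (ε : ℝ)
    (μ : Measure (Cfg H S L × Env H S)), X.IsStar ε μ →
    ∀ᵐ w ∂μ, X.MA (X.Op ε w.2) Set.univ w.1

/-- Block C. The cost bound (5.5) with the parameters of Section 6: scale `l` is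
`4096⁻¹ ^ (l+1) ≤ ε ≤ 4096⁻¹ ^ l`. -/
def Cost_stmt : Prop :=
  ∀ {H S L : Type} [Group H] [Countable H] [Fintype S] [Fintype L] (X : Sys H S L),
    3 ≤ Fintype.card L →
    ∃ C : ℝ, 0 ≤ C ∧ ∀ l : ℕ, ∃ J M : ℕ, ∀ ε : ℝ, ((1 : ℝ) / 4096) ^ (l + 1) ≤ ε →
      ε ≤ ((1 : ℝ) / 4096) ^ l → ∃ cap : ℕ, 1 ≤ cap ∧
        ∀ ε' : ℝ, 0 < ε' → ε' < ε → ∀ μ : Measure (Cfg H S L × Env H S), X.IsStar ε μ →
          ∀ s : S, X.cost ⟨J, M, cap⟩ ε ε' μ s ≤ ENNReal.ofReal (C * (ε - ε') * 2048 ^ l)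

/-- Block D. One batch: the law after the batch and the probability of a change (Section 7). -/
def Batch_stmt : Prop :=
  ∀ {H S L : Type} [Group H] [Countable H] [Fintype S] [Fintype L] (X : Sys H S L),
    3 ≤ Fintype.card L → ∀ (J M : ℕ) (e0 : ℝ), 0 < e0 →
    ∃ θ : ℝ, 0 < θ ∧ ∀ cap : ℕ, 1 ≤ cap → ∀ ε ε' : ℝ, e0 ≤ ε → ε ≤ 1 → 0 < ε' → ε' < ε →
      ε - ε' ≤ θ → ∀ μ : Measure (Cfg H S L × Env H S), X.IsStar ε μ → Sys.Inv μ →
        X.IsStar ε' (X.next ⟨J, M, cap⟩ ε ε' μ) ∧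
        (μ.prod (Sys.lamS H S))
            {w | X.batch ⟨J, M, cap⟩ ε ε' w.1.1 w.1.2 w.2 1 ≠ w.1.1 1} ≤
          ENNReal.ofReal (((ε - ε') / θ) ^ 2) + ∑ s : S, X.cost ⟨J, M, cap⟩ ε ε' μ s

/-- Block D. The batch is equivariant (everywhere). -/
def BatchEquiv_stmt : Prop :=
  ∀ {H S L : Type} [Group H] [Fintype L] (X : Sys H S L) (P : Par) (ε ε' : ℝ) (g : H)
    (q : Cfg H S L) (η : Env H S) (u : Seeds H S),
      X.batch P ε ε' (Sys.actC g q) (Sys.actE g η) (Sys.actE g u) =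
        Sys.actC g (X.batch P ε ε' q η u)

/-- Block D. The batch is measurable. -/
def BatchMeas_stmt : Prop :=
  ∀ {H S L : Type} [Group H] [Countable H] [Fintype S] [Fintype L] (X : Sys H S L) (P : Par)
    (ε ε' : ℝ),
      Measurable fun w : (Cfg H S L × Env H S) × Seeds H S =>
        X.batch P ε ε' w.1.1 w.1.2 w.2

/-- Block E. The initial law: independent uniform bijections. -/
def Init_stmt : Prop :=
  ∀ {H S L : Type} [Group H] [Countable H] [Fintype S] [Fintype L] (X : Sys H S L)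
    (κ : Measure (S ≃ L)) [IsProbabilityMeasure κ], (∀ f g : S ≃ L, κ {f} = κ {g}) →
      X.IsStar 1 ((Measure.infinitePi fun _ : H => κ).prod (Sys.lamE H S)) ∧
        Sys.Inv ((Measure.infinitePi fun _ : H => κ).prod (Sys.lamE H S))

/-- Block E. Choice of the sequence of the batches. -/
def Seq_stmt : Prop :=
  ∀ (θ : ℕ → ℝ) (C : ℝ), (∀ l, 0 < θ l) → 0 ≤ C →
    ∃ (ε : ℕ → ℝ) (l : ℕ → ℕ), ε 0 = 1 ∧ (∀ i, 0 < ε (i + 1) ∧ ε (i + 1) < ε i) ∧
      (∀ i, ((1 : ℝ) / 4096) ^ (l i + 1) ≤ ε i ∧ ε i ≤ ((1 : ℝ) / 4096) ^ (l i)) ∧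
      (∀ i, ε i - ε (i + 1) ≤ θ (l i)) ∧ Filter.Tendsto ε Filter.atTop (nhds 0) ∧
      Summable fun i => ((ε i - ε (i + 1)) / θ (l i)) ^ 2 + C * (ε i - ε (i + 1)) * 2048 ^ (l i)

/-- Block E. The structure theorem: there is a matched configuration which is an equivariant
measurable function of independent uniform labels. -/
def Struct_stmt : Prop :=
  ∀ {H S L : Type} [Group H] [Countable H] [Fintype S] [Fintype L] (X : Sys H S L),
    3 ≤ Fintype.card L →
    ∃ c : (H → unitInterval) → Cfg H S L, Measurable c ∧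
      (∀ (g : H) (x : H → unitInterval), c (fun h => x (g⁻¹ * h)) = Sys.actC g (c x)) ∧
      ∀ᵐ x ∂(Measure.infinitePi fun _ : H => (volume : Measure unitInterval)),
        ∀ v s, X.Mt (c x) v s

end Pool.Agent.Helper73.OE
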