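import Mathlib

/-!
Resampling one coordinate of an infinite product measure.
-/

open MeasureTheory
open scoped ENNReal

namespace Pool.Agent.Helper73.OE

section

variable {ι E : Type} [DecidableEq ι] [MeasurableSpace E] (ν : Measure E)
  [IsProbabilityMeasure ν]

theorem measurable_update_pair (i : ι) :
    Measurable fun p : (ι → E) × E => Function.update p.1 i p.2 := by
  rw [measurable_pi_iff]
  intro j
  by_cases h : j = i
  · subst h
    simp only [Function.update_self]
    exact measurable_snd
  · simp only [Function.update_of_ne h]
    exact (measurable_pi_apply j).comp measurable_fst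

/-- Resampling one coordinate preserves the product measure. -/
theorem map_update_infinitePi (i : ι) :
    ((Measure.infinitePi fun _ : ι => ν).prod ν).map (fun p => Function.update p.1 i p.2) =
      Measure.infinitePi fun _ : ι => ν := by
  refine Measure.eq_infinitePi _ fun s t ht => ?_
  rw [Measure.map_apply (measurable_update_pair i)
    (MeasurableSet.pi s.countable_toSet fun i _ => ht i)]
  by_cases hg : i ∈ s
  · have : (fun p : (ι → E) × E => Function.update p.1 i p.2) ⁻¹' (Set.pi s t) =
        (Set.pi (s.erase i : Finset ι) t) ×ˢ (t i) := by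
      ext p
      simp only [Set.mem_preimage, Set.mem_pi, Finset.mem_coe, Set.mem_prod, Finset.mem_erase]
      constructor
      · intro h
        refine ⟨fun j hj => ?_, ?_⟩
        · have := h j hj.2
          rwa [Function.update_of_ne hj.1] at this
        · have := h i hg
          rwa [Function.update_self] at this
      · rintro ⟨h1, h2⟩ j hj
        by_cases hji : j = i
        · subst hji; rwa [Function.update_self]
        · rw [Function.update_of_ne hji]; exact h1 j ⟨hji, hj⟩
    rw [this, Measure.prod_prod, Measure.infinitePi_pi _ (fun i _ => ht i),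
      Finset.prod_erase_mul _ _ hg]
  · have : (fun p : (ι → E) × E => Function.update p.1 i p.2) ⁻¹' (Set.pi s t) =
        (Set.pi s t) ×ˢ Set.univ := by
      ext p
      simp only [Set.mem_preimage, Set.mem_pi, Finset.mem_coe, Set.mem_prod, Set.mem_univ, and_true]
      constructor
      · intro h j hj
        have hne : j ≠ i := fun h => hg (h ▸ hj)
        have := h j hj
        rwa [Function.update_of_ne hne] at this
      · intro h j hj
        have hne : j ≠ i := fun h => hg (h ▸ hj)
        rw [Function.update_of_ne hne]; exact h j hj
    rw [this, Measure.prod_prod, Measure.infinitePi_pi _ (fun i _ => ht i), measure_univ, mul_one]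

/-- Resampling one coordinate in an integral. -/
theorem lintegral_resample (i : ι) {F : (ι → E) → ℝ≥0∞} (hF : Measurable F) :
    ∫⁻ x, F x ∂(Measure.infinitePi fun _ : ι => ν) =
      ∫⁻ x, ∫⁻ y, F (Function.update x i y) ∂ν ∂(Measure.infinitePi fun _ : ι => ν) := by
  have h1 := map_update_infinitePi ν i
  conv_lhs => rw [← h1]
  rw [lintegral_map hF (measurable_update_pair i)]
  exact lintegral_prod _ (hF.comp (measurable_update_pair i)).aemeasurable

/-- A coordinate is independent of functions which do not depend on it. -/
theorem lintegral_indep_coord (i : ι) {G : (ι → E) → ℝ≥0∞} (hG : Measurable G)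
    (hdep : ∀ x y, G (Function.update x i y) = G x) {φ : E → ℝ≥0∞} (hφ : Measurable φ) :
    ∫⁻ x, G x * φ (x i) ∂(Measure.infinitePi fun _ : ι => ν) =
      (∫⁻ x, G x ∂(Measure.infinitePi fun _ : ι => ν)) * ∫⁻ y, φ y ∂ν := by
  have h0 := lintegral_resample ν i
    (F := fun x => G x * φ (x i)) (hG.mul (hφ.comp (measurable_pi_apply i)))
  rw [h0]
  simp only [Function.update_self, hdep]
  have : ∀ x, ∫⁻ y, G x * φ y ∂ν = G x * ∫⁻ y, φ y ∂ν := fun x => lintegral_const_mul _ hφ
  simp only [this]
  rw [lintegral_mul_const _ hG]

end

end Pool.Agent.Helper73.OE
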