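import Pool.Agent.Helper73.OE.Consist
import Pool.Agent.Helper73.OE.Resample

/-!
Project OE: the law of the dynamics in finite volume, from the exactness of one update.
-/

open MeasureTheory
open scoped ENNReal

namespace Pool.Agent.Helper73.OE

/-! ### The uniform seed -/

theorem volume_floor (cap k : ℕ) (hcap : 1 ≤ cap) :
    (volume : Measure unitInterval) {y | ⌊(cap : ℝ) * (y : ℝ)⌋₊ = k} =
      if k < cap then ((cap : ℝ≥0∞))⁻¹ else 0 := by
  have hc : (0 : ℝ) < cap := by exact_mod_cast hcap
  have himg : ∀ s : Set unitInterval, (volume : Measure unitInterval) s =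
      volume (((↑) : unitInterval → ℝ) '' s) := fun s => by
    change Measure.comap ((↑) : unitInterval → ℝ) volume s = _
    rw [(MeasurableEmbedding.subtype_coe measurableSet_Icc).comap_apply]
  by_cases hk : k < cap
  · rw [if_pos hk, himg]
    have : ((↑) : unitInterval → ℝ) '' {y | ⌊(cap : ℝ) * (y : ℝ)⌋₊ = k} =
        Set.Ico ((k : ℝ) / cap) (((k : ℝ) + 1) / cap) ∩ Set.Icc 0 1 := by
      ext x
      simp only [Set.mem_image, Set.mem_ofPred_eq, Subtype.exists, exists_and_right,
        exists_eq_right, Set.mem_inter_iff, Set.mem_Ico, Set.mem_Icc]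
      constructor
      · rintro ⟨hx, h⟩
        have h0 : 0 ≤ (cap : ℝ) * x := mul_nonneg hc.le hx.1
        rw [Nat.floor_eq_iff h0] at h
        refine ⟨⟨?_, ?_⟩, hx⟩
        · rw [div_le_iff₀ hc]; linarith [h.1]
        · rw [lt_div_iff₀ hc]; linarith [h.2]
      · rintro ⟨⟨h1, h2⟩, hx⟩
        refine ⟨hx, ?_⟩
        have h0 : 0 ≤ (cap : ℝ) * x := mul_nonneg hc.le hx.1
        rw [Nat.floor_eq_iff h0]
        rw [div_le_iff₀ hc] at h1
        rw [lt_div_iff₀ hc] at h2
        constructor <;> linarith
    rw [this, Set.inter_eq_left.2]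
    · rw [Real.volume_Ico]
      have : ((k : ℝ) + 1) / cap - (k : ℝ) / cap = ((cap : ℝ))⁻¹ := by
        field_simp
        ring
      rw [this, ENNReal.ofReal_inv_of_pos hc, ENNReal.ofReal_natCast]
    · intro x hx
      have hk1 : (k : ℝ) + 1 ≤ cap := by exact_mod_cast hk
      refine ⟨le_trans (by positivity) hx.1, le_trans hx.2.le ?_⟩
      rw [div_le_one hc]; exact hk1
  · rw [if_neg hk]
    rw [himg]
    have : ((↑) : unitInterval → ℝ) '' {y | ⌊(cap : ℝ) * (y : ℝ)⌋₊ = k} ⊆ {1} := by
      rintro x ⟨y, hy, rfl⟩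
      simp only [Set.mem_ofPred_eq] at hy
      have h0 : 0 ≤ (cap : ℝ) * y := mul_nonneg hc.le y.2.1
      rw [Nat.floor_eq_iff h0] at hy
      have h1 : (cap : ℝ) ≤ k := by exact_mod_cast not_lt.1 hk
      have h2 : (cap : ℝ) ≤ cap * y := by linarith [hy.1]
      have h3 : (1 : ℝ) ≤ y := by
        by_contra h
        rw [not_le] at h
        nlinarith
      exact le_antisymm y.2.2 h3
    exact measure_mono_null this (by simp)

theorem measurable_floorSeed (cap : ℕ) :
    Measurable fun y : unitInterval => ⌊(cap : ℝ) * (y : ℝ)⌋₊ :=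
  Nat.measurable_floor.comp (measurable_const.mul measurable_subtype_coe)

theorem lintegral_floor (cap : ℕ) (hcap : 1 ≤ cap) (h : ℕ → ℝ≥0∞) :
    ∫⁻ y : unitInterval, h ⌊(cap : ℝ) * (y : ℝ)⌋₊ =
      ((cap : ℝ≥0∞))⁻¹ * ∑ k ∈ Finset.range cap, h k := by
  have hm := measurable_floorSeed cap
  have h1 : ∫⁻ y : unitInterval, h ⌊(cap : ℝ) * (y : ℝ)⌋₊ =
      ∫⁻ k, h k ∂((volume : Measure unitInterval).map fun y : unitInterval => ⌊(cap : ℝ) * (y : ℝ)⌋₊) := by
    rw [lintegral_map measurable_from_top hm]
  rw [h1, lintegral_countable']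
  have h2 : ∀ k : ℕ, h k * ((volume : Measure unitInterval).map
      fun y : unitInterval => ⌊(cap : ℝ) * (y : ℝ)⌋₊) {k} = if k < cap then h k * (cap : ℝ≥0∞)⁻¹ else 0 := by
    intro k
    rw [Measure.map_apply hm (measurableSet_singleton k)]
    have : (fun y : unitInterval => ⌊(cap : ℝ) * (y : ℝ)⌋₊) ⁻¹' {k} =
        {y : unitInterval | ⌊(cap : ℝ) * (y : ℝ)⌋₊ = k} := rfl
    rw [this, volume_floor cap k hcap]
    split_ifs <;> simp
  simp only [h2]
  rw [tsum_eq_sum (s := Finset.range cap)]
  · rw [Finset.mul_sum]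
    refine Finset.sum_congr rfl fun k hk => ?_
    rw [if_pos (Finset.mem_range.1 hk), mul_comm]
  · intro k hk
    rw [if_neg]
    simpa using hk

namespace Sys

set_option linter.unusedSectionVars false

variable {H S L : Type} [Group H] [Fintype S] [Fintype L] (X : Sys H S L)

instance instProbLamS : IsProbabilityMeasure (lamS H S) := by
  unfold lamS; infer_instance

instance instProbLamE : IsProbabilityMeasure (lamE H S) := by
  unfold lamE; infer_instance

/-- Add all edges of a list. -/
def addL (O : Edges H S) : List (H × S) → Edges H S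
  | [] => O
  | e :: l => addL (X.addE O e) l

theorem addL_iff (O : Edges H S) (l : List (H × S)) (v : H) (s : S) :
    X.addL O l v s ↔ O v s ∨ ∃ e ∈ l, (v, s) = e ∨ (v, s) = X.rev e := by
  induction l generalizing O with
  | nil => simp [addL]
  | cons e l ih =>
    unfold addL
    rw [ih]
    unfold addE
    simp only [List.mem_cons, exists_eq_or_imp]
    rw [or_assoc]

theorem Sym_addE {O : Edges H S} (hO : X.Sym O) (e : H × S) : X.Sym (X.addE O e) := by
  intro v s
  unfold addE
  rw [hO v s]
  have h1 : (v, s) = e ↔ (X.nb v s, X.bar s) = X.rev e := by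
    constructor
    · rintro rfl; rfl
    · intro h
      have := congrArg X.rev h
      rw [X.rev_rev] at this
      rw [← this]
      change _ = X.rev (X.rev (v, s))
      rw [X.rev_rev]
  have h2 : (v, s) = X.rev e ↔ (X.nb v s, X.bar s) = e := by
    constructor
    · intro h
      change X.rev (v, s) = e
      rw [h, X.rev_rev]
    · rintro rfl
      exact (X.rev_rev (v, s)).symm
  rw [h1, h2]
  tauto

theorem measurable_sd (P : Par) (e : H × S) : Measurable fun u : Seeds H S => sd P u e :=
  (measurable_floorSeed P.cap).comp (measurable_pi_apply e)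

theorem dynL_congr (P : Par) {u u' : H × S → ℕ} (l : List (H × S)) (O : Edges H S)
    (f : Cfg H S L) (h : ∀ e ∈ l, u e = u' e) : X.dynL P u l O f = X.dynL P u' l O f := by
  induction l generalizing O f with
  | nil => rfl
  | cons e l ih =>
    unfold dynL
    rw [h e (by simp), ih _ _ fun e' he' => h e' (by simp [he'])]

theorem measurable_dynL (P : Par) (l : List (H × S)) (O : Edges H S) (f : Cfg H S L)
    (g : Cfg H S L → ℝ≥0∞) : Measurable fun u : Seeds H S => g (X.dynL P (sd P u) l O f) := by
  induction l generalizing O f with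
  | nil =>
    change Measurable fun _ : Seeds H S => g f
    exact measurable_const
  | cons e l ih =>
    have h1 : Measurable fun p : ℕ × Seeds H S =>
        g (X.dynL P (sd P p.2) l (X.addE O e) (X.Upd P O e.1 e.2 p.1 f)) :=
      measurable_from_prod_countable_right fun k =>
        ih (X.addE O e) (X.Upd P O e.1 e.2 k f)
    exact h1.comp ((measurable_sd P e).prodMk measurable_id)

theorem measurable_starSum_dynL (P : Par) (Λ : Finset H) (l : List (H × S)) (O O' : Edges H S)
    (f : Cfg H S L → Cfg H S L) (g : Cfg H S L → ℝ≥0∞) :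
    Measurable fun u : Seeds H S =>
      X.starSum Λ O (fun q => g (X.dynL P (sd P u) l O' (f q))) := by
  classical
  unfold starSum
  refine Finset.measurable_sum _ fun q _ => ?_
  split_ifs
  · exact X.measurable_dynL P l O' _ g
  · exact measurable_const

/-- The law of the dynamics along a list of edges. -/
theorem dynL_law (hE : Exact_stmt) (P : Par) (hcap : 1 ≤ P.cap) (Λ : Finset H) :
    ∀ (l : List (H × S)) (O : Edges H S), X.Sym O → (∀ v s, O v s → v ∈ Λ ∧ X.nb v s ∈ Λ) →
      (∀ e ∈ l, e.1 ∈ Λ ∧ X.nb e.1 e.2 ∈ Λ ∧ ¬ O e.1 e.2) →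
      l.Pairwise (fun e e' => e' ≠ e ∧ e' ≠ X.rev e) →
      ∀ F : Cfg H S L → ℝ≥0∞,
        ∫⁻ u, X.starSum Λ O (fun f => F (X.dynL P (sd P u) l O f)) ∂(lamS H S) =
          (Fintype.card L : ℝ≥0∞) ^ l.length * X.starSum Λ (X.addL O l) F := by
  classical
  intro l
  induction l with
  | nil =>
    intro O _ _ _ _ F
    simp [dynL, addL]
  | cons e l ih =>
    intro O hO hin hl hp F
    rw [List.pairwise_cons] at hp
    have hle := hl e (by simp)
    -- the integrand
    let Ψ : Seeds H S → ℕ → ℝ≥0∞ := fun u k =>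
      X.starSum Λ O (fun f => F (X.dynL P (sd P u) l (X.addE O e) (X.Upd P O e.1 e.2 k f)))
    have hΨm : Measurable fun u : Seeds H S => Ψ u (sd P u e) := by
      have h1 : Measurable fun p : ℕ × Seeds H S => Ψ p.2 p.1 :=
        measurable_from_prod_countable_right fun k =>
          X.measurable_starSum_dynL P Λ l O (X.addE O e) (X.Upd P O e.1 e.2 k) F
      exact h1.comp ((measurable_sd P e).prodMk measurable_id)
    have h0 : ∀ u : Seeds H S, X.starSum Λ O (fun f => F (X.dynL P (sd P u) (e :: l) O f)) =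
        Ψ u (sd P u e) := fun u => rfl
    simp only [h0]
    have h1 : ∫⁻ u, Ψ u (sd P u e) ∂(lamS H S) =
        ∫⁻ u, ∫⁻ y : unitInterval, Ψ (Function.update u e y) (sd P (Function.update u e y) e)
          ∂volume ∂(lamS H S) := by
      unfold lamS
      exact lintegral_resample (volume : Measure unitInterval) e hΨm
    rw [h1]
    have h2 : ∀ (u : Seeds H S) (y : unitInterval),
        Ψ (Function.update u e y) (sd P (Function.update u e y) e) =
          Ψ u ⌊(P.cap : ℝ) * (y : ℝ)⌋₊ := by
      intro u y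
      have h3 : sd P (Function.update u e y) e = ⌊(P.cap : ℝ) * (y : ℝ)⌋₊ := by
        unfold sd; rw [Function.update_self]
      rw [h3]
      change X.starSum Λ O _ = X.starSum Λ O _
      congr 1
      funext f
      congr 1
      refine X.dynL_congr P l _ _ fun e' he' => ?_
      unfold sd
      rw [Function.update_of_ne (hp.1 e' he').1]
    simp only [h2]
    have h3 : ∀ u : Seeds H S, ∫⁻ y : unitInterval, Ψ u ⌊(P.cap : ℝ) * (y : ℝ)⌋₊ ∂volume =
        (Fintype.card L : ℝ≥0∞) *
          X.starSum Λ (X.addE O e) (fun f => F (X.dynL P (sd P u) l (X.addE O e) f)) := by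
      intro u
      rw [lintegral_floor P.cap hcap (Ψ u)]
      have h4 := hE X P hcap Λ O hO hin e.1 e.2 hle.1 hle.2.1 hle.2.2
        (fun f => F (X.dynL P (sd P u) l (X.addE O e) f))
      change ∑ k ∈ Finset.range P.cap, Ψ u k = _ at h4
      rw [h4, mul_comm (Fintype.card L : ℝ≥0∞) (P.cap : ℝ≥0∞), mul_assoc, ← mul_assoc,
        ENNReal.inv_mul_cancel (by exact_mod_cast (by omega : P.cap ≠ 0)) (by simp), one_mul]
    simp only [h3]
    have h4 : Measurable fun u : Seeds H S =>
        X.starSum Λ (X.addE O e) (fun f => F (X.dynL P (sd P u) l (X.addE O e) f)) :=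
      X.measurable_starSum_dynL P Λ l (X.addE O e) (X.addE O e) (fun f => f) F
    rw [lintegral_const_mul _ h4]
    have h5 := ih (X.addE O e) (X.Sym_addE hO e) (by
        intro v s h
        rcases h with h | h | h
        · exact hin v s h
        · rw [← h] at hle; exact ⟨hle.1, hle.2.1⟩
        · have h6 : v = (X.rev e).1 := congrArg Prod.fst h
          have h7 : s = (X.rev e).2 := congrArg Prod.snd h
          subst h6; subst h7
          refine ⟨hle.2.1, ?_⟩
          have : X.nb (X.rev e).1 (X.rev e).2 = e.1 := by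
            unfold rev; exact X.nb_bar _ _
          rw [this]; exact hle.1) (by
        intro e' he'
        have h6 := hl e' (by simp [he'])
        refine ⟨h6.1, h6.2.1, ?_⟩
        rintro (h | h | h)
        · exact h6.2.2 h
        · exact (hp.1 e' he').1 h
        · exact (hp.1 e' he').2 h) hp.2 F
    rw [h5, List.length_cons, pow_succ', mul_assoc]
    rfl

end Sys

end Pool.Agent.Helper73.OE
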