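import Pool.Agent.Helper73.OE.DynLaw
import Pool.Agent.Helper79.OE.IfaceD

/-!
Project OE: the finite volume law after one batch (7.1): `FV_stmt` and `StarCons_stmt`.
-/

open MeasureTheory
open scoped ENNReal

namespace Pool.Agent.Helper73.OE

namespace Sys

set_option linter.unusedSectionVars false

section Env

variable {H S L : Type} [Group H] (X : Sys H S L)

theorem Cl_rev (ε : ℝ) (η : Env H S) (v : H) (s : S) :
    X.Cl ε η v s ↔ X.Cl ε η (X.nb v s) (X.bar s) := by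
  unfold Cl
  have h : X.rev (X.nb v s, X.bar s) = (v, s) := X.rev_rev (v, s)
  rw [h]
  have h2 : X.rev (v, s) = (X.nb v s, X.bar s) := rfl
  rw [h2, and_comm]

theorem Sym_Op (ε : ℝ) (η : Env H S) : X.Sym (X.Op ε η) := fun v s => not_congr (X.Cl_rev ε η v s)

theorem Sym_Si (ε ε' : ℝ) (η : Env H S) : X.Sym (X.Si ε ε' η) := fun v s =>
  and_congr (X.Cl_rev ε η v s) (not_congr (X.Cl_rev ε' η v s))

theorem Sym_inside {O : Edges H S} (hO : X.Sym O) (Λ : Set H) : X.Sym (X.inside Λ O) := by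
  intro v s
  unfold inside
  rw [X.nb_bar, hO v s]
  tauto

theorem Cl_mono {ε ε' : ℝ} (h : ε' ≤ ε) {η : Env H S} {v : H} {s : S} (h1 : X.Cl ε' η v s) :
    X.Cl ε η v s := ⟨le_trans h1.1 h, le_trans h1.2 h⟩

theorem Op_iff {ε ε' : ℝ} (h : ε' ≤ ε) (η : Env H S) (v : H) (s : S) :
    X.Op ε' η v s ↔ X.Op ε η v s ∨ X.Si ε ε' η v s := by
  unfold Op Si
  by_cases h1 : X.Cl ε η v s
  · tauto
  · have : ¬ X.Cl ε' η v s := fun h2 => h1 (X.Cl_mono h h2)
    tauto

theorem prio_rev (η : Env H S) (e : H × S) : X.prio η (X.rev e) = X.prio η e := by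
  unfold prio
  rw [X.rev_rev, max_comm]

theorem IsOrd.pairwise {ε ε' : ℝ} {η : Env H S} {Λ : Set H} {l : List (H × S)}
    (h : X.IsOrd ε ε' η Λ l) : l.Pairwise (fun e e' => e' ≠ e ∧ e' ≠ X.rev e) := by
  refine h.1.imp ?_
  intro e e' he
  refine ⟨?_, ?_⟩
  · rintro rfl
    exact lt_irrefl _ he
  · rintro rfl
    rw [X.prio_rev] at he
    exact lt_irrefl _ he

theorem ordL_spec {ε ε' : ℝ} {η : Env H S} {Λ : Set H} (h : ∃ l, X.IsOrd ε ε' η Λ l) :
    X.IsOrd ε ε' η Λ (X.ordL ε ε' η Λ) := by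
  unfold ordL
  rw [dif_pos h]
  exact h.choose_spec

theorem addL_ord [Fintype S] [Fintype L] {ε ε' : ℝ} (hε : ε' ≤ ε) {η : Env H S} (hη : Sys.Dist η) {Λ : Set H}
    {l : List (H × S)} (h : X.IsOrd ε ε' η Λ l) :
    X.addL (X.inside Λ (X.Op ε η)) l = X.inside Λ (X.Op ε' η) := by
  funext v s
  apply propext
  rw [X.addL_iff]
  unfold inside
  rw [X.Op_iff hε]
  constructor
  · rintro (h1 | ⟨e, he, h1 | h1⟩)
    · exact ⟨Or.inl h1.1, h1.2⟩
    · subst h1
      have := (h.2 _).1 he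
      exact ⟨Or.inr this.1, this.2.1, this.2.2.1⟩
    · have h2 := (h.2 _).1 he
      have h3 : v = X.nb e.1 e.2 := congrArg Prod.fst h1
      have h4 : s = X.bar e.2 := congrArg Prod.snd h1
      subst h3; subst h4
      refine ⟨Or.inr ?_, h2.2.2.1, ?_⟩
      · exact (X.Sym_Si ε ε' η e.1 e.2).1 h2.1
      · rw [X.nb_bar]; exact h2.2.1
  · rintro ⟨h1 | h1, h2, h3⟩
    · exact Or.inl ⟨h1, h2, h3⟩
    · right
      by_cases hp : X.Pos η (v, s)
      · exact ⟨(v, s), (h.2 _).2 ⟨h1, h2, h3, hp⟩, Or.inl rfl⟩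
      · refine ⟨X.rev (v, s), (h.2 _).2 ⟨(X.Sym_Si ε ε' η v s).1 h1, h3, ?_, ?_⟩,
          Or.inr (X.rev_rev _).symm⟩
        · change X.nb (X.nb v s) (X.bar s) ∈ Λ
          rw [X.nb_bar]; exact h2
        · unfold Pos at hp ⊢
          rw [X.rev_rev]
          rw [not_lt] at hp
          refine lt_of_le_of_ne hp ?_
          intro h4
          exact X.rev_ne (v, s) (hη _ _ (Subtype.ext h4))

end Env

section Law

variable {H S L : Type} [Group H] [Fintype S] [Fintype L] (X : Sys H S L)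

theorem starSum_inside (Λ : Finset H) (O : Edges H S) (F : Cfg H S L → ℝ≥0∞) :
    X.starSum Λ (X.inside (Λ : Set H) O) F = X.starSum Λ O F := by
  classical
  unfold starSum
  refine Finset.sum_congr rfl fun f _ => ?_
  have : X.MA (X.inside (Λ : Set H) O) (Λ : Set H) (X.glue Λ f) ↔
      X.MA O (Λ : Set H) (X.glue Λ f) := by
    constructor
    · intro h v s hv hvs hO
      exact h v s hv hvs ⟨hO, hv, hvs⟩
    · intro h v s hv hvs hO
      exact h v s hv hvs hO.1
  by_cases hh : X.MA O (Λ : Set H) (X.glue Λ f)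
  · rw [if_pos hh, if_pos (this.2 hh)]
  · rw [if_neg hh, if_neg (fun h => hh (this.1 h))]

theorem starAvg_inside (Λ : Finset H) (O : Edges H S) (F : Cfg H S L → ℝ≥0∞) :
    X.starAvg Λ (X.inside (Λ : Set H) O) F = X.starAvg Λ O F := by
  unfold starAvg
  rw [X.starSum_inside, X.starSum_inside]

/-- (7.1) for a fixed environment. -/
theorem starAvg_dyn (hE : Exact_stmt) (P : Par) (hcap : 1 ≤ P.cap) {ε ε' : ℝ} (hε : ε' ≤ ε)
    {η : Env H S} (hη : Sys.Dist η) (Λ : Finset H)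
    (hord : ∃ l, X.IsOrd ε ε' η (Λ : Set H) l) (F : Cfg H S L → ℝ≥0∞) :
    X.starAvg Λ (X.Op ε η) (fun q => ∫⁻ u, F (X.dyn P ε ε' (Λ : Set H) q η u) ∂(lamS H S)) =
      X.starAvg Λ (X.Op ε' η) F := by
  classical
  have hl := X.ordL_spec hord
  set l := X.ordL ε ε' η (Λ : Set H) with hldef
  have key : ∀ F : Cfg H S L → ℝ≥0∞,
      X.starSum Λ (X.inside (Λ : Set H) (X.Op ε η))
        (fun q => ∫⁻ u, F (X.dyn P ε ε' (Λ : Set H) q η u) ∂(lamS H S)) =
      (Fintype.card L : ℝ≥0∞) ^ l.length *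
        X.starSum Λ (X.inside (Λ : Set H) (X.Op ε' η)) F := by
    intro F
    have h1 := X.dynL_law hE P hcap Λ l (X.inside (Λ : Set H) (X.Op ε η))
      (X.Sym_inside (X.Sym_Op ε η) _) (fun v s h => ⟨h.2.1, h.2.2⟩) (by
        intro e he
        have := (hl.2 e).1 he
        refine ⟨this.2.1, this.2.2.1, ?_⟩
        rintro ⟨h2, _⟩
        exact h2 this.1.1) (IsOrd.pairwise X hl) F
    rw [X.addL_ord hε hη hl] at h1
    rw [← h1]
    unfold starSum
    rw [lintegral_finsetSum']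
    · refine Finset.sum_congr rfl fun f _ => ?_
      split_ifs
      · rfl
      · simp
    · intro f _
      split_ifs
      · exact (X.measurable_dynL P l _ _ F).aemeasurable
      · exact aemeasurable_const
  rw [← X.starAvg_inside Λ (X.Op ε η), ← X.starAvg_inside Λ (X.Op ε' η)]
  unfold starAvg
  have h1 := key (fun _ => 1)
  simp only [lintegral_const, measure_univ, mul_one] at h1
  rw [key F, h1]
  have hn : (Fintype.card L : ℝ≥0∞) ^ l.length ≠ 0 := by
    by_cases hL : l.length = 0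
    · rw [hL]; simp
    · apply pow_ne_zero
      have hne : l ≠ [] := fun h => hL (by rw [h]; rfl)
      obtain ⟨e, he⟩ := List.exists_mem_of_ne_nil l hne
      have : Nonempty L := ⟨X.e0 e.2⟩
      exact_mod_cast Fintype.card_ne_zero
  rw [ENNReal.mul_div_mul_left _ _ hn (by
    apply ENNReal.pow_ne_top
    exact ENNReal.natCast_ne_top _)]

theorem dynL_local (hU : UpdLoc_stmt) (P : Par) (u : H × S → ℕ) (Λ : Set H) :
    ∀ (l : List (H × S)) (O : Edges H S), (∀ v s, O v s → v ∈ Λ ∧ X.nb v s ∈ Λ) →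
      (∀ e ∈ l, e.1 ∈ Λ ∧ X.nb e.1 e.2 ∈ Λ) → ∀ f f' : Cfg H S L, (∀ z ∈ Λ, f z = f' z) →
      (∀ z ∈ Λ, X.dynL P u l O f z = X.dynL P u l O f' z) ∧
        ∀ z, z ∉ Λ → X.dynL P u l O f z = f z := by
  intro l
  induction l with
  | nil =>
    intro O _ _ f f' hf
    exact ⟨hf, fun z _ => rfl⟩
  | cons e l ih =>
    intro O hO hl f f' hf
    have he := hl e (by simp)
    have h1 := hU X P Λ O hO e.1 e.2 he.1 he.2 (u e) f f' hf
    have hO' : ∀ v s, X.addE O e v s → v ∈ Λ ∧ X.nb v s ∈ Λ := by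
      intro v s h
      rcases h with h | h | h
      · exact hO v s h
      · have h2 : v = e.1 := congrArg Prod.fst h
        have h3 : s = e.2 := congrArg Prod.snd h
        rw [h2, h3]; exact he
      · have h2 : v = X.nb e.1 e.2 := congrArg Prod.fst h
        have h3 : s = X.bar e.2 := congrArg Prod.snd h
        rw [h2, h3, X.nb_bar]; exact ⟨he.2, he.1⟩
    have h2 := ih (X.addE O e) hO' (fun e' he' => hl e' (by simp [he']))
      (X.Upd P O e.1 e.2 (u e) f) (X.Upd P O e.1 e.2 (u e) f') h1.1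
    refine ⟨h2.1, fun z hz => ?_⟩
    change X.dynL P u l (X.addE O e) (X.Upd P O e.1 e.2 (u e) f) z = f z
    rw [h2.2 z hz, h1.2 z hz]

theorem dyn_local (hU : UpdLoc_stmt) (P : Par) (ε ε' : ℝ) (Λ : Set H) (η : Env H S)
    (u : Seeds H S) (f f' : Cfg H S L) (hf : ∀ z ∈ Λ, f z = f' z) :
    (∀ z ∈ Λ, X.dyn P ε ε' Λ f η u z = X.dyn P ε ε' Λ f' η u z) ∧
      ∀ z, z ∉ Λ → X.dyn P ε ε' Λ f η u z = f z := by
  unfold dyn
  refine X.dynL_local hU P _ Λ _ _ (fun v s h => ⟨h.2.1, h.2.2⟩) ?_ f f' hf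
  intro e he
  unfold ordL at he
  split_ifs at he with h
  · have := (h.choose_spec.2 e).1 he
    exact ⟨this.2.1, this.2.2.1⟩
  · simp at he

end Law

end Sys

/-- The spine, second part. -/
theorem starCons : StarCons_stmt := by
  intro H S L _ _ _ X O _ o Λ Λ' h h' hsub F hF
  exact X.starAvg_mono O h h' hsub F hF

/-- Existence of the list of the updated edges. -/
def OrdEx_stmt : Prop :=
  ∀ {H S L : Type} [Group H] [Fintype S] (X : Sys H S L) (ε ε' : ℝ) (η : Env H S),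
    Sys.Dist η → ∀ Λ : Finset H, ∃ l, X.IsOrd ε ε' η (Λ : Set H) l

/-- Almost surely all labels are different. -/
def DistAE_stmt : Prop :=
  ∀ {H S : Type} [Countable H] [Fintype S], ∀ᵐ η ∂(Sys.lamE H S), Sys.Dist η

/-- Measurability of the dynamics in finite volume. -/
def DynMeas_stmt : Prop :=
  ∀ {H S L : Type} [Group H] [Countable H] [Fintype S] [Fintype L] (X : Sys H S L) (P : Par)
    (ε ε' : ℝ) (Λ : Finset H),
      Measurable fun w : (Cfg H S L × Env H S) × Seeds H S =>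
        X.dyn P ε ε' (Λ : Set H) w.1.1 w.1.2 w.2

/-- The spine, first part (7.1). -/
theorem finiteVolume (hE : Exact_stmt) (hU : UpdLoc_stmt) (hO : OrdEx_stmt) (hD : DistAE_stmt)
    (hM : DynMeas_stmt) : FV_stmt := by
  intro H S L _ _ _ _ X P hcap ε ε' _ hε μ hμ o Λ hΛ F hF hdep
  have hprob : IsProbabilityMeasure μ := by
    have h1 := hμ o Λ hΛ (fun _ => 1) measurable_const (fun _ _ _ _ => rfl)
    simp only [X.starAvg_one _ hΛ, lintegral_const, measure_univ, mul_one] at h1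
    exact ⟨by simpa using h1⟩
  have hΦ : Measurable fun w : (Cfg H S L × Env H S) × Seeds H S =>
      F (X.dyn P ε ε' (Λ : Set H) w.1.1 w.1.2 w.2, w.1.2) :=
    hF.comp ((hM X P ε ε' Λ).prodMk (measurable_snd.comp measurable_fst))
  rw [lintegral_prod _ hΦ.aemeasurable]
  have h1 : Measurable fun w : Cfg H S L × Env H S =>
      ∫⁻ u, F (X.dyn P ε ε' (Λ : Set H) w.1 w.2 u, w.2) ∂(Sys.lamS H S) :=
    hΦ.lintegral_prod_right'
  rw [hμ o Λ hΛ _ h1 (by
    intro q q' η hq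
    simp only
    refine lintegral_congr fun u => ?_
    apply hdep
    intro z hz
    exact (X.dyn_local hU P ε ε' (Λ : Set H) η u q q' hq).1 z hz)]
  refine lintegral_congr_ae ?_
  filter_upwards [hD (H := H) (S := S)] with η hη
  exact X.starAvg_dyn hE P hcap hε.le hη Λ (hO X ε ε' η hη Λ) (fun q => F (q, η))

end Pool.Agent.Helper73.OE
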