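import Pool.Agent.Helper73.OE.Defs

/-!
Project OE: geometry of the tree.
-/

namespace Pool.Agent.Helper73.OE

namespace Sys

variable {H S L : Type} [Group H] (X : Sys H S L)

theorem nb_bar (v : H) (s : S) : X.nb (X.nb v s) (X.bar s) = v := by
  unfold nb; rw [X.dir_bar]; simp

theorem rev_rev (e : H × S) : X.rev (X.rev e) = e := by
  unfold rev
  simp only [X.nb_bar, X.bar_bar]

theorem nb_mul (g v : H) (s : S) : X.nb (g * v) s = g * X.nb v s := by
  unfold nb; rw [mul_assoc]

theorem rev_mul (g : H) (e : H × S) : X.rev (g * e.1, e.2) = (g * (X.rev e).1, (X.rev e).2) := by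
  unfold rev; simp only [X.nb_mul]

theorem dist_self (v : H) : X.dist v v = 0 := (X.dist_eq_zero v v).2 rfl

theorem dist_nb (o v : H) (s : S) :
    X.dist o (X.nb v s) = X.dist o v + 1 ∨ X.dist o v = X.dist o (X.nb v s) + 1 := X.step o v s

theorem dist_nb' (o v : H) (s : S) :
    X.dist (X.nb v s) o = X.dist v o + 1 ∨ X.dist v o = X.dist (X.nb v s) o + 1 := by
  rw [X.dist_comm (X.nb v s) o, X.dist_comm v o]; exact X.step o v s

theorem dist_nb_le (o v : H) (s : S) : X.dist o (X.nb v s) ≤ X.dist o v + 1 := by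
  rcases X.dist_nb o v s with h | h <;> omega

theorem dist_le_nb (o v : H) (s : S) : X.dist o v ≤ X.dist o (X.nb v s) + 1 := by
  rcases X.dist_nb o v s with h | h <;> omega

theorem dist_nb_self (v : H) (s : S) : X.dist v (X.nb v s) = 1 := by
  rcases X.dist_nb v v s with h | h
  · rw [h, X.dist_self]
  · rw [X.dist_self] at h; omega

theorem nb_ne (v : H) (s : S) : X.nb v s ≠ v := by
  intro h
  have := X.dist_nb_self v s
  rw [h, X.dist_self] at this
  omega

theorem nb_inj {v : H} {s t : S} (h : X.nb v s = X.nb v t) : s = t := by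
  have h1 : v ≠ X.nb v s := (X.nb_ne v s).symm
  obtain ⟨c, -, hc⟩ := X.par (X.nb v s) v h1
  have e1 := X.dist_nb_self v s
  have e2 : X.dist (X.nb v s) v = 1 := by rw [X.dist_comm]; exact e1
  have hs : s = c := by
    apply hc
    change X.dist (X.nb v s) v = X.dist (X.nb v s) (X.nb v s) + 1
    rw [X.dist_self, e2]
  have ht : t = c := by
    apply hc
    change X.dist (X.nb v s) v = X.dist (X.nb v s) (X.nb v t) + 1
    rw [← h, X.dist_self, e2]
  rw [hs, ht]

theorem rev_ne (e : H × S) : X.rev e ≠ e := by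
  intro h
  exact X.nb_ne e.1 e.2 (congrArg Prod.fst h)

/-- Membership in the side of an edge. -/
theorem mem_Sd {v z : H} {p : S} : z ∈ X.Sd v p ↔ X.dist v z < X.dist (X.nb v p) z := Iff.rfl

theorem mem_Sd_iff {v z : H} {p : S} : z ∈ X.Sd v p ↔ X.dist z (X.nb v p) = X.dist z v + 1 := by
  rw [X.mem_Sd, X.dist_comm v z, X.dist_comm (X.nb v p) z]
  rcases X.dist_nb z v p with h | h <;> omega

theorem mem_Sd_bar {v z : H} {p : S} :
    z ∈ X.Sd (X.nb v p) (X.bar p) ↔ X.dist z v = X.dist z (X.nb v p) + 1 := by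
  rw [X.mem_Sd, X.nb_bar, X.dist_comm v z, X.dist_comm (X.nb v p) z]
  rcases X.dist_nb z v p with h | h <;> omega

theorem notMem_Sd {v z : H} {p : S} : z ∉ X.Sd v p ↔ z ∈ X.Sd (X.nb v p) (X.bar p) := by
  rw [X.mem_Sd_bar, X.mem_Sd_iff]
  rcases X.dist_nb z v p with h | h <;> omega

theorem self_mem_Sd (v : H) (p : S) : v ∈ X.Sd v p := by
  rw [X.mem_Sd_iff, X.dist_nb_self, X.dist_self]

theorem notMem_Sd_bar (v : H) (p : S) : v ∉ X.Sd (X.nb v p) (X.bar p) := by
  rw [← X.notMem_Sd, not_not]; exact X.self_mem_Sd v p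

theorem nb_notMem_Sd (v : H) (p : S) : X.nb v p ∉ X.Sd v p := by
  rw [X.notMem_Sd]; exact X.self_mem_Sd _ _

/-- A vertex different from `v` lies in exactly one branch at `v`. -/
theorem exists_branch {v z : H} (h : z ≠ v) : ∃ s, z ∈ X.Sd (X.nb v s) (X.bar s) := by
  obtain ⟨s, hs, -⟩ := X.par z v (Ne.symm h)
  exact ⟨s, X.mem_Sd_bar.2 hs⟩

theorem branch_unique {v z : H} {s t : S} (hs : z ∈ X.Sd (X.nb v s) (X.bar s))
    (ht : z ∈ X.Sd (X.nb v t) (X.bar t)) : s = t := by
  have h : v ≠ z := by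
    rintro rfl
    exact X.notMem_Sd_bar v s hs
  obtain ⟨c, -, hc⟩ := X.par z v h
  rw [hc s (X.mem_Sd_bar.1 hs), hc t (X.mem_Sd_bar.1 ht)]

/-- A branch at `v` is contained in the side of `v` of every other edge at `v`. -/
theorem branch_subset {v : H} {p t : S} (h : t ≠ p) :
    X.Sd (X.nb v t) (X.bar t) ⊆ X.Sd v p := by
  intro z hz
  by_contra h2
  rw [X.notMem_Sd] at h2
  exact h (X.branch_unique hz h2)

theorem Past_subset {v : H} {p t : S} (h : t ≠ p) : X.Past v p ⊆ X.Sd v t := by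
  intro z hz
  rcases hz with rfl | hz
  · exact X.self_mem_Sd _ _
  · exact X.branch_subset (Ne.symm h) hz

theorem Past_nb (v : H) (t : S) :
    X.Past (X.nb v t) (X.bar t) = insert (X.nb v t) (X.Sd v t) := by
  unfold Past
  rw [X.nb_bar, X.bar_bar]

theorem Sd_subset_Past (v : H) (t : S) : X.Sd v t ⊆ X.Past (X.nb v t) (X.bar t) := by
  rw [X.Past_nb]; exact Set.subset_insert _ _

theorem self_mem_Past (v : H) (p : S) : v ∈ X.Past v p := Set.mem_insert _ _

theorem nb_mem_Past (v : H) (p : S) : X.nb v p ∈ X.Past v p := Or.inr (X.self_mem_Sd _ _)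

/-- If an edge joins a vertex of `Sd v p` with a vertex outside then it is `(v, p)`. -/
theorem Sd_edge {v z : H} {p r : S} (h1 : z ∈ X.Sd v p) (h2 : X.nb z r ∉ X.Sd v p) :
    z = v ∧ r = p := by
  have key : z = v := by
    by_contra hne
    -- `z` lies in a branch at `v`, different from `p`
    obtain ⟨t, ht⟩ := X.exists_branch hne
    have htp : t ≠ p := by
      rintro rfl
      exact (X.notMem_Sd.2 ht) h1
    -- compare distances from the edge `(z, r)`
    rw [X.notMem_Sd, X.mem_Sd_bar] at h2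
    rw [X.mem_Sd_iff] at h1
    rw [X.mem_Sd_bar] at ht
    -- distances of `z` and of `nb z r` to `v` and `nb v p`
    have a1 := X.dist_nb' v z r
    have a2 := X.dist_nb' (X.nb v p) z r
    have a3 := X.dist_nb' (X.nb v t) z r
    -- seen from `nb z r`
    have b1 := X.dist_nb (X.nb z r) v t
    have hu : X.dist (X.nb z r) v = X.dist (X.nb z r) (X.nb v t) + 1 → False := by
      intro h3
      have hvz : v ≠ X.nb z r := by
        intro h4
        rw [← h4, X.dist_self] at h2
        omega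
      obtain ⟨c, -, hc⟩ := X.par (X.nb z r) v hvz
      exact htp ((hc t h3).trans (hc p h2).symm)
    rcases b1 with b1 | b1
    · -- then dist (nb z r) v + 1 = dist (nb z r) (nb v t)
      omega
    · exact hu b1
  subst key
  refine ⟨rfl, ?_⟩
  by_contra hr
  apply h2
  exact X.branch_subset hr (X.self_mem_Sd _ _)

theorem mem_ball {o z : H} {r : ℕ} : z ∈ X.ball o r ↔ X.dist o z ≤ r := Iff.rfl

theorem PC_ball (o : H) (r : ℕ) : X.PC o (X.ball o r) := by
  refine ⟨?_, ?_⟩
  · rw [X.mem_ball, X.dist_self]; exact Nat.zero_le _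
  · intro z hz s hs
    rw [X.mem_ball] at hz ⊢
    omega

theorem ball_mono (o : H) {r r' : ℕ} (h : r ≤ r') : X.ball o r ⊆ X.ball o r' :=
  fun _ hz => le_trans hz h

theorem exists_parent {o z : H} (h : z ≠ o) : ∃ s, X.dist o z = X.dist o (X.nb z s) + 1 := by
  obtain ⟨s, hs, -⟩ := X.par o z h
  exact ⟨s, hs⟩

theorem parent_unique {o z : H} {s t : S} (hs : X.dist o z = X.dist o (X.nb z s) + 1)
    (ht : X.dist o z = X.dist o (X.nb z t) + 1) : s = t := by
  have h : z ≠ o := by
    rintro rfl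
    rw [X.dist_self] at hs
    omega
  obtain ⟨c, -, hc⟩ := X.par o z h
  rw [hc s hs, hc t ht]

theorem finite_ball [Finite S] (o : H) (r : ℕ) : (X.ball o r).Finite := by
  induction r with
  | zero =>
    refine (Set.finite_singleton o).subset ?_
    intro z hz
    rw [X.mem_ball, Nat.le_zero, X.dist_eq_zero] at hz
    exact hz.symm
  | succ r ih =>
    have h2 : (Set.image2 (fun (z : H) (s : S) => X.nb z (X.bar s)) (X.ball o r) Set.univ).Finite :=
      ih.image2 _ Set.finite_univ
    refine ((ih.union h2)).subset ?_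
    intro z hz
    by_cases hzo : z = o
    · left
      rw [hzo, X.mem_ball, X.dist_self]
      exact Nat.zero_le _
    · right
      obtain ⟨s, hs⟩ := X.exists_parent hzo
      rw [X.mem_ball] at hz
      refine ⟨X.nb z s, ?_, s, Set.mem_univ _, X.nb_bar z s⟩
      rw [X.mem_ball]
      omega

theorem PC_inter_ball {o : H} {A : Set H} (h : X.PC o A) (r : ℕ) : X.PC o (A ∩ X.ball o r) := by
  refine ⟨⟨h.1, (X.PC_ball o r).1⟩, ?_⟩
  intro z hz s hs
  exact ⟨h.2 z hz.1 s hs, (X.PC_ball o r).2 z hz.2 s hs⟩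

/-- The side of `v` of an edge at `v` is parent-closed towards `v`. -/
theorem PC_Sd (v : H) (p : S) : X.PC v (X.Sd v p) := by
  refine ⟨X.self_mem_Sd v p, ?_⟩
  intro z hz s hs
  by_contra h2
  obtain ⟨rfl, rfl⟩ := X.Sd_edge hz h2
  rw [X.dist_self] at hs
  omega

theorem dist_mul_nb (g o v : H) (s : S) :
    X.dist (g * o) (X.nb (g * v) s) = X.dist o (X.nb v s) := by
  rw [X.nb_mul, X.dist_mul]

theorem mem_Sd_mul {g v z : H} {p : S} : g * z ∈ X.Sd (g * v) p ↔ z ∈ X.Sd v p := by
  rw [X.mem_Sd, X.mem_Sd, X.nb_mul, X.dist_mul, X.dist_mul]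

include X in
theorem card_eq [Fintype S] [Fintype L] : Fintype.card S = Fintype.card L :=
  Fintype.card_congr X.e0

end Sys

end Pool.Agent.Helper73.OE
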