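import Pool.Agent.Helper73.OE.Iface

/-!
Project OE: consistency of the uniform laws on the matched configurations in finite parent-closed
sets.
-/

open MeasureTheory
open scoped ENNReal

namespace Pool.Agent.Helper73.OE

namespace Sys

set_option linter.unusedSectionVars false

variable {H S L : Type} [Group H] [Fintype S] [Fintype L] (X : Sys H S L)

theorem glue_mem (Λ : Finset H) (f : Λ → (S ≃ L)) {z : H} (hz : z ∈ Λ) :
    X.glue Λ f z = f ⟨z, hz⟩ := by
  unfold glue; rw [dif_pos hz]

theorem glue_notMem (Λ : Finset H) (f : Λ → (S ≃ L)) {z : H} (hz : z ∉ Λ) :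
    X.glue Λ f z = X.e0 := by
  unfold glue; rw [dif_neg hz]

open Classical in
theorem glue_insert_sum (Λ : Finset H) (z : H) (hz : z ∉ Λ) (Φ : Cfg H S L → ℝ≥0∞) :
    ∑ f : ↥(insert z Λ) → (S ≃ L), Φ (X.glue (insert z Λ) f) =
      ∑ f : Λ → (S ≃ L), ∑ g : S ≃ L, Φ (Function.update (X.glue Λ f) z g) := by
  let e : (↥(insert z Λ) → (S ≃ L)) ≃ (Λ → (S ≃ L)) × (S ≃ L) :=
    { toFun := fun f => (fun i => f ⟨i.1, Finset.mem_insert_of_mem i.2⟩,
        f ⟨z, Finset.mem_insert_self z Λ⟩)
      invFun := fun p i => if h : i.1 = z then p.2 else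
        p.1 ⟨i.1, Finset.mem_of_mem_insert_of_ne i.2 h⟩
      left_inv := by
        intro f
        funext i
        by_cases h : i.1 = z
        · simp only [h, dif_pos]
          congr 1
          exact Subtype.ext h.symm
        · simp only [h, dif_neg, not_false_iff]
      right_inv := by
        rintro ⟨f, g⟩
        refine Prod.ext ?_ ?_
        · funext i
          have h : (i : H) ≠ z := by
            intro h
            exact hz (h ▸ i.2)
          simp only [h, dif_neg, not_false_iff]
        · simp }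
  rw [← Fintype.sum_prod_type']
  refine Fintype.sum_equiv e _ _ ?_
  intro f
  congr 1
  funext w
  by_cases hw : w = z
  · subst hw
    rw [X.glue_mem _ _ (Finset.mem_insert_self w Λ), Function.update_self]
    rfl
  · rw [Function.update_of_ne hw]
    by_cases hw2 : w ∈ Λ
    · rw [X.glue_mem _ _ (Finset.mem_insert_of_mem hw2), X.glue_mem _ _ hw2]
      rfl
    · rw [X.glue_notMem _ _ hw2, X.glue_notMem]
      simp [hw, hw2]

/-- The only neighbour of a new vertex in a parent-closed set is its parent. -/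
theorem nb_mem_unique {o z : H} {Λ : Set H} (hΛ : X.PC o Λ) (hz : z ∉ Λ) {r s : S}
    (hr : X.dist o z = X.dist o (X.nb z r) + 1) (hs : X.nb z s ∈ Λ) : s = r := by
  rcases X.dist_nb o z s with h | h
  · exfalso
    apply hz
    have := hΛ.2 _ hs (X.bar s) (by rw [X.nb_bar]; exact h)
    rwa [X.nb_bar] at this
  · exact X.parent_unique h hr

open Classical in
theorem MA_insert {o z : H} {Λ : Finset H} (O : Edges H S) (hΛ : X.PC o (Λ : Set H)) (hz : z ∉ Λ)
    {r : S} (hr : X.dist o z = X.dist o (X.nb z r) + 1) (hrΛ : X.nb z r ∈ Λ)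
    (f : Cfg H S L) (g : S ≃ L) :
    X.MA O (insert z (Λ : Set H)) (Function.update f z g) ↔
      X.MA O (Λ : Set H) f ∧
        ((O z r ∨ O (X.nb z r) (X.bar r)) → g r = X.tau (f (X.nb z r) (X.bar r))) := by
  have hne : X.nb z r ≠ z := X.nb_ne z r
  constructor
  · intro h
    refine ⟨?_, ?_⟩
    · intro v s hv hvs hO
      have h1 : v ≠ z := fun h => hz (h ▸ hv)
      have h2 : X.nb v s ≠ z := fun h => hz (h ▸ hvs)
      have := h v s (Set.mem_insert_of_mem _ hv) (Set.mem_insert_of_mem _ hvs) hO
      unfold Mt at this ⊢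
      rwa [Function.update_of_ne h1, Function.update_of_ne h2] at this
    · rintro (hO | hO)
      · have := h z r (Set.mem_insert _ _) (Set.mem_insert_of_mem _ hrΛ) hO
        unfold Mt at this
        rw [Function.update_of_ne hne, Function.update_self] at this
        rw [this, X.tau_tau]
      · have := h (X.nb z r) (X.bar r) (Set.mem_insert_of_mem _ hrΛ)
          (by rw [X.nb_bar]; exact Set.mem_insert _ _) hO
        unfold Mt at this
        rw [X.nb_bar, X.bar_bar, Function.update_of_ne hne, Function.update_self] at this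
        exact this
  · rintro ⟨h1, h2⟩ v s hv hvs hO
    unfold Mt
    rcases hv with hv | hv
    · subst hv
      rcases hvs with hvs | hvs
      · exact absurd hvs (X.nb_ne _ _)
      · have hsr : s = r := X.nb_mem_unique hΛ hz hr hvs
        subst hsr
        rw [Function.update_of_ne hne, Function.update_self, h2 (Or.inl hO), X.tau_tau]
    · have hvz : v ≠ z := fun h => hz (h ▸ hv)
      rcases hvs with hvs | hvs
      · -- `nb v s = z`
        have hv' : v = X.nb z (X.bar s) := by rw [← hvs, X.nb_bar]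
        have hsr : X.bar s = r := X.nb_mem_unique hΛ hz hr (hv' ▸ hv)
        subst hsr
        rw [X.bar_bar, ← hv'] at h2
        rw [Function.update_of_ne hvz, hvs, Function.update_self]
        exact h2 (Or.inr hO)
      · have h3 : X.nb v s ≠ z := fun h => hz (h ▸ hvs)
        rw [Function.update_of_ne hvz, Function.update_of_ne h3]
        exact h1 v s hv hvs hO

open Classical in
theorem card_fix (r : S) (l l' : L) :
    (Finset.univ.filter fun g : S ≃ L => g r = l).card =
      (Finset.univ.filter fun g : S ≃ L => g r = l').card := by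
  refine Finset.card_bij' (fun g _ => g.trans (Equiv.swap l l'))
    (fun g _ => g.trans (Equiv.swap l l')) ?_ ?_ ?_ ?_
  · intro g hg
    simp only [Finset.mem_filter, Finset.mem_univ, true_and] at hg ⊢
    simp [hg]
  · intro g hg
    simp only [Finset.mem_filter, Finset.mem_univ, true_and] at hg ⊢
    simp [hg]
  · intro g _
    ext x
    simp
  · intro g _
    ext x
    simp

include X in
open Classical in
theorem card_fix_pos (r : S) (l : L) : (Finset.univ.filter fun g : S ≃ L => g r = l).card ≠ 0 := by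
  rw [Ne, Finset.card_eq_zero]
  apply Finset.Nonempty.ne_empty
  exact ⟨X.e0.trans (Equiv.swap (X.e0 r) l), by simp⟩

/-- One more vertex. -/
theorem starSum_insert {o z : H} {Λ : Finset H} (O : Edges H S) (hΛ : X.PC o (Λ : Set H))
    (hz : z ∉ Λ) {r : S} (hr : X.dist o z = X.dist o (X.nb z r) + 1) (hrΛ : X.nb z r ∈ Λ) :
    ∃ K : ℕ, K ≠ 0 ∧ ∀ F : Cfg H S L → ℝ≥0∞, (∀ q q' : Cfg H S L, (∀ z ∈ Λ, q z = q' z) → F q = F q') →
      ∀ [DecidableEq H], X.starSum (insert z Λ) O F = K * X.starSum Λ O F := by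
  classical
  let P : Prop := O z r ∨ O (X.nb z r) (X.bar r)
  let l0 : L := X.e0 r
  refine ⟨if P then (Finset.univ.filter fun g : S ≃ L => g r = l0).card
    else Fintype.card (S ≃ L), ?_, ?_⟩
  · split_ifs
    · exact X.card_fix_pos r l0
    · have : Nonempty (S ≃ L) := ⟨X.e0⟩
      exact Fintype.card_ne_zero
  · intro F hF inst
    have hinst : inst = Classical.decEq H := Subsingleton.elim _ _
    subst hinst
    unfold starSum
    rw [X.glue_insert_sum Λ z hz
      (fun q => if X.MA O (↑(insert z Λ) : Set H) q then F q else 0), Finset.mul_sum]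
    refine Finset.sum_congr rfl fun f _ => ?_
    have h1 : ∀ g : S ≃ L,
        (if X.MA O (↑(insert z Λ) : Set H) (Function.update (X.glue Λ f) z g) then
          F (Function.update (X.glue Λ f) z g) else 0) =
        (if P → g r = X.tau (X.glue Λ f (X.nb z r) (X.bar r)) then
          (if X.MA O (Λ : Set H) (X.glue Λ f) then F (X.glue Λ f) else 0) else 0) := by
      intro g
      rw [Finset.coe_insert, X.MA_insert O hΛ hz hr hrΛ]
      have h2 : F (Function.update (X.glue Λ f) z g) = F (X.glue Λ f) := by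
        apply hF
        intro w hw
        rw [Function.update_of_ne]
        rintro rfl
        exact hz hw
      rw [h2]
      by_cases ha : X.MA O (Λ : Set H) (X.glue Λ f) <;>
        by_cases hb : (P → g r = X.tau (X.glue Λ f (X.nb z r) (X.bar r)))
      · rw [if_pos ⟨ha, hb⟩, if_pos hb, if_pos ha]
      · rw [if_neg (fun h => hb h.2), if_neg hb]
      · rw [if_neg (fun h => ha h.1), if_pos hb, if_neg ha]
      · rw [if_neg (fun h => hb h.2), if_neg hb]
    rw [Finset.sum_congr rfl fun g _ => h1 g]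
    rw [← Finset.sum_filter, Finset.sum_const, nsmul_eq_mul]
    congr 2
    by_cases hP : P
    · simp only [hP, true_imp_iff, if_true]
      exact card_fix r _ _
    · simp only [hP, false_imp_iff, if_false]
      simp

/-- Consistency: the sums over the matched configurations on a larger parent-closed set are a
multiple. -/
theorem starSum_mono {o : H} (O : Edges H S) {Λ : Finset H} (hΛ : X.PC o (Λ : Set H)) :
    ∀ (n : ℕ) (Λ' : Finset H), Λ'.card = n → X.PC o (Λ' : Set H) → Λ ⊆ Λ' →
    ∃ K : ℕ, K ≠ 0 ∧ ∀ F : Cfg H S L → ℝ≥0∞,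
      (∀ q q' : Cfg H S L, (∀ z ∈ Λ, q z = q' z) → F q = F q') →
      X.starSum Λ' O F = K * X.starSum Λ O F := by
  classical
  intro n
  induction n with
  | zero =>
    intro Λ' hc _ hsub
    have h1 : Λ' = ∅ := Finset.card_eq_zero.1 hc
    subst h1
    have h2 : Λ = ∅ := Finset.subset_empty.1 hsub
    subst h2
    exact ⟨1, one_ne_zero, fun F _ => by simp⟩
  | succ n ih =>
    intro Λ' hc hPC hsub
    by_cases heq : Λ = Λ'
    · subst heq
      exact ⟨1, one_ne_zero, fun F _ => by simp⟩
    · have hne : (Λ' \ Λ).Nonempty := by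
        rw [Finset.sdiff_nonempty]
        intro h
        exact heq (Finset.Subset.antisymm hsub h)
      obtain ⟨z, hz, hmax⟩ := Finset.exists_max_image (Λ' \ Λ) (fun w => X.dist o w) hne
      rw [Finset.mem_sdiff] at hz
      have hzo : z ≠ o := by
        rintro rfl
        exact hz.2 (Finset.mem_coe.1 hΛ.1)
      obtain ⟨r, hr⟩ := X.exists_parent hzo
      have hrΛ' : X.nb z r ∈ Λ' := Finset.mem_coe.1 (hPC.2 z (Finset.mem_coe.2 hz.1) r hr)
      let Λ1 := Λ'.erase z
      have hPC1 : X.PC o (Λ1 : Set H) := by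
        refine ⟨?_, ?_⟩
        · rw [Finset.mem_coe, Finset.mem_erase]
          exact ⟨hzo.symm, Finset.mem_coe.1 hPC.1⟩
        · intro w hw s hs
          rw [Finset.mem_coe, Finset.mem_erase] at hw
          rw [Finset.mem_coe, Finset.mem_erase]
          refine ⟨?_, Finset.mem_coe.1 (hPC.2 w (Finset.mem_coe.2 hw.2) s hs)⟩
          intro h
          by_cases hwΛ : w ∈ Λ
          · apply hz.2
            rw [← h]
            exact Finset.mem_coe.1 (hΛ.2 w (Finset.mem_coe.2 hwΛ) s hs)
          · have := hmax w (Finset.mem_sdiff.2 ⟨hw.2, hwΛ⟩)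
            rw [h] at hs
            omega
      have hsub1 : Λ ⊆ Λ1 := by
        intro w hw
        rw [Finset.mem_erase]
        exact ⟨fun h => hz.2 (h ▸ hw), hsub hw⟩
      have hc1 : Λ1.card = n := by
        rw [Finset.card_erase_of_mem hz.1, hc]; rfl
      obtain ⟨K1, hK1, h1⟩ := ih Λ1 hc1 hPC1 hsub1
      have hrΛ1 : X.nb z r ∈ Λ1 := by
        rw [Finset.mem_erase]; exact ⟨X.nb_ne z r, hrΛ'⟩
      obtain ⟨K2, hK2, h2⟩ := X.starSum_insert O hPC1 (Finset.notMem_erase z Λ') hr hrΛ1
      refine ⟨K2 * K1, mul_ne_zero hK2 hK1, ?_⟩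
      intro F hF
      have h3 : Λ' = insert z Λ1 := (Finset.insert_erase hz.1).symm
      have h4 : X.starSum Λ' O F = K2 * X.starSum Λ1 O F := by
        rw [h3]
        exact h2 F fun q q' hq => hF q q' fun w hw => hq w (hsub1 hw)
      rw [h4, h1 F hF, ← mul_assoc]
      push_cast
      rfl

theorem starSum_ne_top (O : Edges H S) (Λ : Finset H) (F : Cfg H S L → ℝ≥0∞)
    (hF : ∀ q, F q ≠ ⊤) : X.starSum Λ O F ≠ ⊤ := by
  classical
  unfold starSum
  refine (ENNReal.sum_lt_top.2 fun f _ => ?_).ne
  split_ifs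
  · exact (hF _).lt_top
  · exact ENNReal.zero_lt_top

theorem starSum_one_ne_zero (O : Edges H S) {o : H} {Λ : Finset H} (hΛ : X.PC o (Λ : Set H)) :
    X.starSum Λ O (fun _ => 1) ≠ 0 := by
  classical
  have h0 : X.PC o (({o} : Finset H) : Set H) := by
    refine ⟨by simp, ?_⟩
    intro z hz s hs
    rw [Finset.coe_singleton, Set.mem_singleton_iff] at hz
    subst hz
    rw [X.dist_self] at hs
    omega
  obtain ⟨K, hK, h⟩ := X.starSum_mono O h0 _ Λ rfl hΛ (by
    intro w hw
    rw [Finset.mem_singleton] at hw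
    subst hw
    exact Finset.mem_coe.1 hΛ.1)
  rw [h (fun _ => 1) (fun _ _ _ => rfl)]
  refine mul_ne_zero (by exact_mod_cast hK) ?_
  unfold starSum
  have h1 : ∀ f : ({o} : Finset H) → (S ≃ L),
      X.MA O (({o} : Finset H) : Set H) (X.glue {o} f) := by
    intro f v s hv hvs _
    rw [Finset.coe_singleton, Set.mem_singleton_iff] at hv hvs
    exact absurd (hvs.trans hv.symm) (X.nb_ne v s)
  rw [Finset.sum_congr rfl fun f _ => if_pos (h1 f)]
  rw [Finset.sum_const, nsmul_eq_mul, mul_one]
  have : Nonempty (({o} : Finset H) → (S ≃ L)) := ⟨fun _ => X.e0⟩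
  rw [Finset.card_univ]
  exact_mod_cast Fintype.card_ne_zero

/-- Consistency of the mean values. -/
theorem starAvg_mono {o : H} (O : Edges H S) {Λ Λ' : Finset H} (hΛ : X.PC o (Λ : Set H))
    (hΛ' : X.PC o (Λ' : Set H)) (hsub : Λ ⊆ Λ') (F : Cfg H S L → ℝ≥0∞)
    (hF : ∀ q q' : Cfg H S L, (∀ z ∈ Λ, q z = q' z) → F q = F q') :
    X.starAvg Λ' O F = X.starAvg Λ O F := by
  obtain ⟨K, hK, h⟩ := X.starSum_mono O hΛ _ Λ' rfl hΛ' hsub
  unfold starAvg
  rw [h F hF, h (fun _ => 1) (fun _ _ _ => rfl)]
  rw [ENNReal.mul_div_mul_left _ _ (by exact_mod_cast hK) (by simp)]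

theorem starAvg_one (O : Edges H S) {o : H} {Λ : Finset H} (hΛ : X.PC o (Λ : Set H)) :
    X.starAvg Λ O (fun _ => 1) = 1 := by
  unfold starAvg
  exact ENNReal.div_self (X.starSum_one_ne_zero O hΛ) (X.starSum_ne_top O Λ _ (by simp))

end Sys

end Pool.Agent.Helper73.OE
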