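import Mathlib

/-!
Project OE (MP_fc0446_an): definitions. Text: Pool/Agent/Helper73/OE/paper.md.

`H` is a group whose Cayley graph for the directions `dir : S → H` is a regular tree, `L` is the set
of labels. A configuration gives at every vertex `v` a bijection `S ≃ L` (the label of the half edge
leaving `v` in the direction `s`).
-/

open MeasureTheory
open scoped ENNReal

namespace Pool.Agent.Helper73.OE

/-- A group `H` with directions `dir : S → H` such that the Cayley graph is a tree with distance
`dist`, and a label set `L` with an involution `tau`. -/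
structure Sys (H S L : Type) [Group H] where
  dir : S → H
  bar : S → S
  dist : H → H → ℕ
  bar_bar : ∀ s, bar (bar s) = s
  dir_bar : ∀ s, dir (bar s) = (dir s)⁻¹
  dist_comm : ∀ v z, dist v z = dist z v
  dist_mul : ∀ g v z, dist (g * v) (g * z) = dist v z
  dist_eq_zero : ∀ v z, dist v z = 0 ↔ v = z
  step : ∀ o v s, dist o (v * dir s) = dist o v + 1 ∨ dist o v = dist o (v * dir s) + 1
  par : ∀ o v, v ≠ o → ∃! s, dist o v = dist o (v * dir s) + 1
  tau : L → L
  tau_tau : ∀ l, tau (tau l) = l
  e0 : S ≃ L

/-- Configurations. -/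
abbrev Cfg (H S L : Type) := H → (S ≃ L)

/-- Sets of directed edges. -/
abbrev Edges (H S : Type) := H → S → Prop

/-- The random labels of the directed edges: `.1` decides when the edge is updated, `.2` gives
priorities and orientations. -/
abbrev Env (H S : Type) := H × S → unitInterval × unitInterval

/-- The seeds of one batch. -/
abbrev Seeds (H S : Type) := H × S → unitInterval

/-- Parameters of an update. -/
structure Par where
  J : ℕ
  M : ℕ
  cap : ℕ

/-- The `u`-th element of `A`, if `A` has at most `cap` elements. -/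
noncomputable def pick {ι : Type} (cap : ℕ) (A : Finset ι) (u : ℕ) : Option ι :=
  if h : A.card ≤ cap ∧ u < A.card then some ((A.equivFin.symm ⟨u, h.2⟩).1) else none

/-- All subsets of `S ≃ L` are measurable. -/
instance instMSEquiv (S L : Type) : MeasurableSpace (S ≃ L) := ⊤

namespace Sys

variable {H S L : Type} [Group H] (X : Sys H S L)

/-! ### Geometry -/

/-- The neighbour of `v` in the direction `s`. -/
def nb (v : H) (s : S) : H := v * X.dir s

/-- The reversed directed edge. -/
def rev (e : H × S) : H × S := (X.nb e.1 e.2, X.bar e.2)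

/-- The side of `v` of the edge `(v, p)`: the vertices which are closer to `v` than to the
neighbour. -/
def Sd (v : H) (p : S) : Set H := {z | X.dist v z < X.dist (X.nb v p) z}

/-- The past of `v` with the in-direction `p`: `v` and the other side of the edge `(v, p)`. -/
def Past (v : H) (p : S) : Set H := insert v (X.Sd (X.nb v p) (X.bar p))

/-- The ball. -/
def ball (o : H) (r : ℕ) : Set H := {z | X.dist o z ≤ r}

/-- `Λ` contains `o` and with every vertex also its parent (towards `o`). -/
def PC (o : H) (Λ : Set H) : Prop :=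
  o ∈ Λ ∧ ∀ z ∈ Λ, ∀ s, X.dist o z = X.dist o (X.nb z s) + 1 → X.nb z s ∈ Λ

/-- A set of directed edges which is symmetric. -/
def Sym (O : Edges H S) : Prop := ∀ v s, O v s ↔ O (X.nb v s) (X.bar s)

/-! ### Matched edges, runs, moves, updates -/

/-- The edge `(v, s)` is matched in `f`. -/
def Mt (f : Cfg H S L) (v : H) (s : S) : Prop := f (X.nb v s) (X.bar s) = X.tau (f v s)

/-- All edges of `O` with both ends in `A` are matched in `f`. -/
def MA (O : Edges H S) (A : Set H) (f : Cfg H S L) : Prop :=
  ∀ v s, v ∈ A → X.nb v s ∈ A → O v s → X.Mt f v s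

/-- The run from `v` with the in-direction `p` and the new label `y` of the in-direction has more
than `r` vertices. (Its out-direction at `v` is the direction with the label `y`; the out-direction
gets the old label `f v p` of the in-direction.) -/
def Long (O : Edges H S) (f : Cfg H S L) : ℕ → H → S → L → Prop
  | 0, _, _, _ => True
  | r + 1, v, p, y => O v ((f v).symm y) ∧
      Long O f r (X.nb v ((f v).symm y)) (X.bar ((f v).symm y)) (X.tau (f v p))

/-- `z` is a vertex of the run. -/
inductive OnRun (O : Edges H S) (f : Cfg H S L) : H → S → L → H → Prop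
  | here (v : H) (p : S) (y : L) : OnRun O f v p y v
  | step (v : H) (p : S) (y : L) (z : H) (ho : O v ((f v).symm y))
      (h : OnRun O f (X.nb v ((f v).symm y)) (X.bar ((f v).symm y)) (X.tau (f v p)) z) :
      OnRun O f v p y z

open Classical in
/-- The permutation of the labels at `z` made by the flip of the run from `v` with the in-direction
`p` and the new label `y` (search for `z` among the first `n + 1` vertices of the run). -/
noncomputable def flipP (O : Edges H S) (f : Cfg H S L) (z : H) : ℕ → H → S → L → Equiv.Perm L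
  | 0, v, p, y => if z = v then Equiv.swap (f v p) y else 1
  | n + 1, v, p, y =>
    if z = v then Equiv.swap (f v p) y
    else if O v ((f v).symm y) then
      flipP O f z n (X.nb v ((f v).symm y)) (X.bar ((f v).symm y)) (X.tau (f v p))
    else 1

/-- Flip the whole run: the label of the half edge `(v, p)` becomes `y`. -/
noncomputable def flip (O : Edges H S) (v : H) (p : S) (y : L) (f : Cfg H S L) : Cfg H S L :=
  fun z => (f z).trans (X.flipP O f z (X.dist v z) v p y)

open Classical in
/-- The label of the half edge `(u, t)` at `u` becomes `y`: the permutation at `z` made by the flip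
of the run beyond. -/
noncomputable def armP (O : Edges H S) (f : Cfg H S L) (z : H) (u : H) (t : S) (y : L) :
    Equiv.Perm L :=
  if O u t then X.flipP O f z (X.dist (X.nb u t) z) (X.nb u t) (X.bar t) (X.tau y) else 1

/-- The arm has at most `M` vertices. -/
def ArmOk (O : Edges H S) (M : ℕ) (f : Cfg H S L) (u : H) (t : S) (y : L) : Prop :=
  O u t → ¬ X.Long O f M (X.nb u t) (X.bar t) (X.tau y)

open Classical in
/-- The permutation at `z` made by the tripod move with the centre at the position `m` (beginning
with `0`) of the run and the side label `k`. -/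
noncomputable def triP (O : Edges H S) (f : Cfg H S L) (z : H) :
    ℕ → H → S → L → L → Equiv.Perm L
  | 0, v, p, y, k =>
    if z = v then (Equiv.swap (f v p) y).trans (Equiv.swap (f v p) k)
    else (X.armP O f z v ((f v).symm y) k).trans (X.armP O f z v ((f v).symm k) (f v p))
  | m + 1, v, p, y, k =>
    if z = v then Equiv.swap (f v p) y
    else triP O f z m (X.nb v ((f v).symm y)) (X.bar ((f v).symm y)) (X.tau (f v p)) k

/-- The tripod move. -/
noncomputable def TR (O : Edges H S) (m : ℕ) (v : H) (p : S) (y k : L) (f : Cfg H S L) :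
    Cfg H S L :=
  fun z => (f z).trans (X.triP O f z m v p y k)

/-- The tripod move is available. -/
def Av (O : Edges H S) (M : ℕ) (f : Cfg H S L) : ℕ → H → S → L → L → Prop
  | 0, v, p, y, k => k ≠ f v p ∧ k ≠ y ∧ X.ArmOk O M f v ((f v).symm y) k ∧
      X.ArmOk O M f v ((f v).symm k) (f v p)
  | m + 1, v, p, y, k => O v ((f v).symm y) ∧
      Av O M f m (X.nb v ((f v).symm y)) (X.bar ((f v).symm y)) (X.tau (f v p)) k

open Classical in
/-- The set of available indices. -/
noncomputable def AS [Fintype L] (P : Par) (O : Edges H S) (f : Cfg H S L) (v : H) (p : S) (y : L) :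
    Finset (Fin P.J × L) :=
  Finset.univ.filter fun i => X.Av O P.M f (2 * (i.1 : ℕ) + 1) v p y i.2

/-- The tripod move with the index `i`. -/
noncomputable def TRi (P : Par) (O : Edges H S) (i : Fin P.J × L) (v : H) (p : S) (y : L)
    (f : Cfg H S L) : Cfg H S L :=
  X.TR O (2 * (i.1 : ℕ) + 1) v p y i.2 f

/-- The update at the edge `(v, s)` with the seed `u` makes a cheap move with index `i`. -/
def Cheap [Fintype L] (P : Par) (O : Edges H S) (v : H) (s : S) (u : ℕ) (f : Cfg H S L)
    (i : Fin P.J × L) : Prop :=
  pick P.cap (X.AS P O f v s (X.tau (f (X.nb v s) (X.bar s)))) u = some i ∧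
    (X.AS P O (X.TRi P O i v s (X.tau (f (X.nb v s) (X.bar s))) f) v s (f v s)).card ≤ P.cap

open Classical in
/-- The update at the edge `(v, s)`. -/
noncomputable def Upd [Fintype L] (P : Par) (O : Edges H S) (v : H) (s : S) (u : ℕ)
    (f : Cfg H S L) : Cfg H S L :=
  if X.tau (f (X.nb v s) (X.bar s)) = f v s then f
  else if h : ∃ i, X.Cheap P O v s u f i then
    X.TRi P O h.choose v s (X.tau (f (X.nb v s) (X.bar s))) f
  else X.flip O (X.nb v s) (X.bar s) (X.tau (f v s)) f

/-- Add the edge `e` to the set of open edges. -/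
def addE (O : Edges H S) (e : H × S) : Edges H S :=
  fun v s => O v s ∨ (v, s) = e ∨ (v, s) = X.rev e

/-- The updates at the edges of a list. -/
noncomputable def dynL [Fintype L] (P : Par) (u : H × S → ℕ) :
    List (H × S) → Edges H S → Cfg H S L → Cfg H S L
  | [], _, f => f
  | e :: l, O, f => dynL P u l (X.addE O e) (X.Upd P O e.1 e.2 (u e) f)

/-! ### Environment -/

/-- The closed edges of the threshold `ε`. -/
def Cl (ε : ℝ) (η : Env H S) : Edges H S := fun v s =>
  ((η (v, s)).1 : ℝ) ^ 2 ≤ ε ∧ ((η (X.rev (v, s))).1 : ℝ) ^ 2 ≤ ε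

/-- The open edges. -/
def Op (ε : ℝ) (η : Env H S) : Edges H S := fun v s => ¬ X.Cl ε η v s

/-- The edges of the batch from `ε` to `ε'`. -/
def Si (ε ε' : ℝ) (η : Env H S) : Edges H S := fun v s => X.Cl ε η v s ∧ ¬ X.Cl ε' η v s

/-- The directed edge `e` is positive. -/
def Pos (η : Env H S) (e : H × S) : Prop := ((η e).2 : ℝ) < (η (X.rev e)).2

/-- The priority of the edge. -/
noncomputable def prio (η : Env H S) (e : H × S) : ℝ := max ((η e).2 : ℝ) (η (X.rev e)).2

/-- The open edges inside `Λ`. -/
def inside (Λ : Set H) (O : Edges H S) : Edges H S := fun v s => O v s ∧ v ∈ Λ ∧ X.nb v s ∈ Λ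

/-- `l` is the list of the positive edges of the batch inside `Λ`, in the order of priority. -/
def IsOrd (ε ε' : ℝ) (η : Env H S) (Λ : Set H) (l : List (H × S)) : Prop :=
  l.Pairwise (fun e e' => X.prio η e < X.prio η e') ∧
    ∀ e, e ∈ l ↔ (X.Si ε ε' η e.1 e.2 ∧ e.1 ∈ Λ ∧ X.nb e.1 e.2 ∈ Λ ∧ X.Pos η e)

open Classical in
/-- The list of the positive edges of the batch inside `Λ`, in the order of priority. -/
noncomputable def ordL (ε ε' : ℝ) (η : Env H S) (Λ : Set H) : List (H × S) :=
  if h : ∃ l, X.IsOrd ε ε' η Λ l then h.choose else []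

/-- The seed of an edge. -/
noncomputable def sd (P : Par) (u : Seeds H S) : H × S → ℕ := fun e => ⌊(P.cap : ℝ) * (u e : ℝ)⌋₊

/-- The dynamics of one batch in the finite volume `Λ`. -/
noncomputable def dyn [Fintype L] (P : Par) (ε ε' : ℝ) (Λ : Set H) (q : Cfg H S L) (η : Env H S)
    (u : Seeds H S) : Cfg H S L :=
  X.dynL P (sd P u) (X.ordL ε ε' η Λ) (X.inside Λ (X.Op ε η)) q

open Classical in
/-- One batch in infinite volume. -/
noncomputable def batch [Fintype L] (P : Par) (ε ε' : ℝ) (q : Cfg H S L) (η : Env H S)
    (u : Seeds H S) : Cfg H S L := fun o =>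
  if h : ∃ f : S ≃ L, ∀ᶠ Λ : Finset H in Filter.atTop, X.dyn P ε ε' (Λ : Set H) q η u o = f
  then h.choose else q o

/-! ### Laws -/

/-- The law of the environment. -/
noncomputable def lamE (H S : Type) : Measure (Env H S) :=
  Measure.infinitePi fun _ : H × S => (volume : Measure (unitInterval × unitInterval))

/-- The law of the seeds. -/
noncomputable def lamS (H S : Type) : Measure (Seeds H S) :=
  Measure.infinitePi fun _ : H × S => (volume : Measure unitInterval)

open Classical in
/-- Extension of a configuration on `Λ` by `e0`. -/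
noncomputable def glue (Λ : Finset H) (f : Λ → (S ≃ L)) : Cfg H S L := fun z =>
  if h : z ∈ Λ then f ⟨z, h⟩ else X.e0

open Classical in
/-- The sum of `F` over the configurations on `Λ` for which all edges of `O` inside `Λ` are
matched. -/
noncomputable def starSum [Fintype S] [Fintype L] (Λ : Finset H) (O : Edges H S)
    (F : Cfg H S L → ℝ≥0∞) : ℝ≥0∞ :=
  ∑ f : Λ → (S ≃ L), if X.MA O (Λ : Set H) (X.glue Λ f) then F (X.glue Λ f) else 0

/-- The mean value of `F` over these configurations. -/
noncomputable def starAvg [Fintype S] [Fintype L] (Λ : Finset H) (O : Edges H S)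
    (F : Cfg H S L → ℝ≥0∞) : ℝ≥0∞ :=
  X.starSum Λ O F / X.starSum Λ O (fun _ => 1)

/-- The law (*): given the environment, the restriction of the configuration to a finite
parent-closed set is uniform on the configurations for which the open edges inside are matched. -/
def IsStar [Fintype S] [Fintype L] (ε : ℝ) (μ : Measure (Cfg H S L × Env H S)) : Prop :=
  ∀ (o : H) (Λ : Finset H), X.PC o (Λ : Set H) →
    ∀ F : Cfg H S L × Env H S → ℝ≥0∞, Measurable F →
      (∀ q q' η, (∀ z ∈ Λ, q z = q' z) → F (q, η) = F (q', η)) →
      ∫⁻ w, F w ∂μ = ∫⁻ η, X.starAvg Λ (X.Op ε η) (fun q => F (q, η)) ∂(lamE H S)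

/-- `G` depends only on the configuration at the vertices of `A` and on the labels of the directed
edges with both ends in `A`. -/
def DepOn {α : Type} (A : Set H) (G : Cfg H S L × Env H S → α) : Prop :=
  ∀ w w' : Cfg H S L × Env H S, (∀ z ∈ A, w.1 z = w'.1 z) →
    (∀ z s, z ∈ A → X.nb z s ∈ A → w.2 (z, s) = w'.2 (z, s)) → G w = G w'

/-- The action of `H` on configurations. -/
def actC (g : H) (q : Cfg H S L) : Cfg H S L := fun v => q (g⁻¹ * v)

/-- The action of `H` on labels of directed edges. -/
def actE {α : Type} (g : H) (η : H × S → α) : H × S → α := fun e => η (g⁻¹ * e.1, e.2)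

/-- Invariance of a law. -/
def Inv (μ : Measure (Cfg H S L × Env H S)) : Prop :=
  ∀ g : H, μ.map (fun w => (actC g w.1, actE g w.2)) = μ

/-- The law after the batch. -/
noncomputable def next [Fintype L] (P : Par) (ε ε' : ℝ) (μ : Measure (Cfg H S L × Env H S)) :
    Measure (Cfg H S L × Env H S) :=
  (μ.prod (lamS H S)).map fun w => (X.batch P ε ε' w.1.1 w.1.2 w.2, w.1.2)

end Sys

end Pool.Agent.Helper73.OE
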