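import Pool.Agent.Helper73.OE.FV
import Pool.Agent.Helper75.OE.AsmAB
import Pool.Agent.Helper58.OE.DORD
import Pool.Agent.Helper26.OE.DMEO
import Pool.Agent.Helper30.OE.DMEA
import Pool.Agent.Helper86.OE.DDIS

/-!
Project OE: the finite volume law, without hypotheses.
-/

open MeasureTheory
open scoped ENNReal

namespace Pool.Agent.Helper73.OE

theorem ordEx_stmt : OrdEx_stmt := by
  intro H S L _ _ X ε ε' η hη Λ
  exact ⟨_, (Pool.Agent.Helper58.OE.ord X ε ε' η (Λ : Set H)).2 inferInstance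
    Λ.finite_toSet hη⟩

theorem distAE_stmt : DistAE_stmt := by
  intro H S _ _
  exact Pool.Agent.Helper86.OE.dis

theorem dynMeas_stmt : DynMeas_stmt := by
  intro H S L _ _ _ _ X P ε ε' Λ
  exact Pool.Agent.Helper30.OE.mea Pool.Agent.Helper75.OE.Asm.updLoc_stmt
    Pool.Agent.Helper58.OE.ord Pool.Agent.Helper26.OE.meo X P ε ε' Λ

theorem fv_stmt : FV_stmt :=
  finiteVolume Pool.Agent.Helper75.OE.Asm.exact_stmt Pool.Agent.Helper75.OE.Asm.updLoc_stmt
    ordEx_stmt distAE_stmt dynMeas_stmt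

end Pool.Agent.Helper73.OE
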